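import Mathlib
import Pool.Agent.H892.KT.EN

/-!
# Enoki surfaces: the first normal form
-/

set_option autoImplicit false

open Filter Topology Set Metric

namespace Pool.Agent.H299.KT

open Pool.Agent.H892.KT

theorem equiv_of_inj (L : ℂ × ℂ →L[ℂ] ℂ × ℂ) (h : ∀ v, L v = 0 → v = 0) :
    ∃ A : (ℂ × ℂ) ≃L[ℂ] (ℂ × ℂ), L = (A : ℂ × ℂ →L[ℂ] ℂ × ℂ) := by
  have hi : Function.Injective (L : (ℂ × ℂ) →ₗ[ℂ] (ℂ × ℂ)) := by
    rw [injective_iff_map_eq_zero]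
    exact h
  refine ⟨(LinearEquiv.ofInjectiveEndo (L : (ℂ × ℂ) →ₗ[ℂ] (ℂ × ℂ)) hi).toContinuousLinearEquiv, ?_⟩
  rfl

theorem inj_near (hANA : S_ANA) {f : ℂ × ℂ → ℂ × ℂ} {d : ℝ} (hd : 0 < d)
    (hf : DifferentiableOn ℂ f (ball 0 d)) {L : ℂ × ℂ →L[ℂ] ℂ × ℂ} (hL : HasFDerivAt f L 0)
    (hinj : ∀ v, L v = 0 → v = 0) : ∃ δ : ℝ, 0 < δ ∧ InjOn f (ball 0 δ) := by
  obtain ⟨A, hA⟩ := equiv_of_inj L hinj
  have h1 : AnalyticAt ℂ f 0 := hANA (ball 0 d) f isOpen_ball hf 0 (mem_ball_self hd)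
  have h2 : HasStrictFDerivAt f (A : ℂ × ℂ →L[ℂ] ℂ × ℂ) 0 := by
    have h3 := h1.hasStrictFDerivAt
    rwa [hL.fderiv, hA] at h3
  obtain ⟨δ, hδ, hb⟩ := Metric.eventually_nhds_iff_ball.1 h2.eventually_left_inverse
  refine ⟨δ, hδ, fun x hx y hy hxy => ?_⟩
  rw [← hb x hx, ← hb y hy, hxy]

theorem unif {n : ℕ} [NeZero n] (P : ZMod n → ℝ → Prop)
    (hP : ∀ i a b, P i a → b ≤ a → P i b) (h : ∀ i, ∃ a : ℝ, 0 < a ∧ P i a) :
    ∃ a : ℝ, 0 < a ∧ ∀ i, P i a := by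
  choose δ hδ hPδ using h
  have hne : (Finset.univ : Finset (ZMod n)).Nonempty := Finset.univ_nonempty
  refine ⟨Finset.univ.inf' hne δ, ?_, fun i => ?_⟩
  · exact (Finset.lt_inf'_iff hne).2 fun i _ => hδ i
  · exact hP i _ _ (hPδ i) (Finset.inf'_le _ (Finset.mem_univ i))

theorem t_ST1 (h1 : S_NBHD) (h2 : S_EIG) (h3 : S_MKK) (h4 : S_INVD) (h5 : S_ANA) : S_ST1 := by
  intro n _ K hgeo hne hprod
  obtain ⟨τ, d0, κ, H, hτ0, hτ1, hd0, hκ, hHd, hH0, hHne, heq⟩ := h2 n K hgeo hne hprod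
  have hU : ∀ i, ball (0 : ℂ × ℂ) d0 ⊆ K.U i := fun i y hy => (heq i y hy).1
  have hσd : ∀ i, DifferentiableOn ℂ (K.σ i) (ball 0 d0) := fun i => (K.diff i).mono (hU i)
  have hn0 : ball (0 : ℂ × ℂ) d0 ∈ 𝓝 (0 : ℂ × ℂ) := ball_mem_nhds _ hd0
  obtain ⟨u, hu⟩ : ∃ u : ZMod n → ℂ × ℂ → ℂ, u = fun i y => κ i * (K.σ i y).2 * H i y := ⟨_, rfl⟩
  obtain ⟨ψ, hψ⟩ : ∃ ψ : ZMod n → ℂ × ℂ → ℂ × ℂ, ψ = fun i y => (y.1, u i y) := ⟨_, rfl⟩
  obtain ⟨s, hs⟩ : ∃ s : ZMod n → ℂ × ℂ → ℂ × ℂ, s = fun i y =>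
    ((K.σ i y).1 * (τ * κ i * H i y)⁻¹, τ * u i y) := ⟨_, rfl⟩
  have hud : ∀ i, DifferentiableOn ℂ (u i) (ball 0 d0) := by
    intro i
    rw [hu]
    exact ((hσd i).snd.const_mul (κ i)).mul (hHd i)
  have hψd : ∀ i, DifferentiableOn ℂ (ψ i) (ball 0 d0) := by
    intro i
    rw [hψ]
    exact differentiableOn_fst.prodMk (hud i)
  have hgd : ∀ i, DifferentiableOn ℂ (fun y => (τ * κ i * H i y)⁻¹) (ball 0 d0) := by
    intro i
    exact ((hHd i).const_mul (τ * κ i)).fun_inv fun y hy =>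
      mul_ne_zero (mul_ne_zero hτ0 (hκ i)) (hHne i y hy)
  have hsd : ∀ i, DifferentiableOn ℂ (s i) (ball 0 d0) := by
    intro i
    rw [hs]
    exact ((hσd i).fst.mul (hgd i)).prodMk ((hud i).const_mul τ)
  have hA : ∀ i, HasFDerivAt (K.σ i) (fderiv ℂ (K.σ i) 0) 0 := fun i =>
    ((hσd i).differentiableAt hn0).hasFDerivAt
  have hu' : ∀ i, HasFDerivAt (u i)
      (κ i • (ContinuousLinearMap.snd ℂ ℂ ℂ).comp (fderiv ℂ (K.σ i) 0)) 0 := by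
    intro i
    have e1 := ((hA i).snd.const_mul (κ i)).mul ((hHd i).differentiableAt hn0).hasFDerivAt
    rw [K.map_zero i, hH0 i] at e1
    rw [hu]
    refine e1.congr_fderiv (ContinuousLinearMap.ext fun v => ?_)
    show κ i * (0 : ℂ) * (fderiv ℂ (H i) 0 v) + 1 * (κ i * (fderiv ℂ (K.σ i) 0 v).2) =
      κ i * (fderiv ℂ (K.σ i) 0 v).2
    ring
  have hψ' : ∀ i, HasFDerivAt (ψ i) ((ContinuousLinearMap.fst ℂ ℂ ℂ).prod
      (κ i • (ContinuousLinearMap.snd ℂ ℂ ℂ).comp (fderiv ℂ (K.σ i) 0))) 0 := by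
    intro i
    rw [hψ]
    exact hasFDerivAt_fst.prodMk (hu' i)
  have hs' : ∀ i, HasFDerivAt (s i)
      (((τ * κ i)⁻¹ • (ContinuousLinearMap.fst ℂ ℂ ℂ).comp (fderiv ℂ (K.σ i) 0)).prod
      (τ • κ i • (ContinuousLinearMap.snd ℂ ℂ ℂ).comp (fderiv ℂ (K.σ i) 0))) 0 := by
    intro i
    have e1 := (hA i).fst.mul ((hgd i).differentiableAt hn0).hasFDerivAt
    rw [K.map_zero i, hH0 i] at e1
    rw [hs]
    refine HasFDerivAt.prodMk (e1.congr_fderiv ?_) ((hu' i).const_mul τ)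
    refine ContinuousLinearMap.ext fun v => ?_
    show (0 : ℂ) * (fderiv ℂ (fun y => (τ * κ i * H i y)⁻¹) 0 v) +
      (τ * κ i * 1)⁻¹ * (fderiv ℂ (K.σ i) 0 v).1 = (τ * κ i)⁻¹ * (fderiv ℂ (K.σ i) 0 v).1
    ring
  have hψinj : ∀ i, ∃ δ : ℝ, 0 < δ ∧ InjOn (ψ i) (ball 0 δ) := by
    intro i
    refine inj_near h5 hd0 (hψd i) (hψ' i) fun v hv => ?_
    have e1 : v.1 = 0 := congrArg Prod.fst hv
    have e2 : κ i * (fderiv ℂ (K.σ i) 0 v).2 = 0 := congrArg Prod.snd hv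
    have e3 : (fderiv ℂ (K.σ i) 0 v).2 = 0 := (mul_eq_zero.1 e2).resolve_left (hκ i)
    have e4 : v = v.2 • ((0 : ℂ), (1 : ℂ)) := by
      refine Prod.ext ?_ ?_
      · simp [e1]
      · simp
    rw [e4, map_smul] at e3
    have e5 : v.2 * (fderiv ℂ (K.σ i) 0 (0, 1)).2 = 0 := e3
    have e6 : v.2 = 0 := (mul_eq_zero.1 e5).resolve_right (hne i)
    exact Prod.ext e1 e6
  have hsinj : ∀ i, ∃ δ : ℝ, 0 < δ ∧ InjOn (s i) (ball 0 δ) := by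
    intro i
    refine inj_near h5 hd0 (hsd i) (hs' i) fun v hv => ?_
    have e1 : (τ * κ i)⁻¹ * (fderiv ℂ (K.σ i) 0 v).1 = 0 := congrArg Prod.fst hv
    have e2 : τ * (κ i * (fderiv ℂ (K.σ i) 0 v).2) = 0 := congrArg Prod.snd hv
    have e3 : (fderiv ℂ (K.σ i) 0 v).1 = 0 :=
      (mul_eq_zero.1 e1).resolve_left (inv_ne_zero (mul_ne_zero hτ0 (hκ i)))
    have e4 : (fderiv ℂ (K.σ i) 0 v).2 = 0 :=
      (mul_eq_zero.1 ((mul_eq_zero.1 e2).resolve_left hτ0)).resolve_left (hκ i)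
    obtain ⟨A, hAi⟩ := h4 n K i
    have e5 : fderiv ℂ (K.σ i) 0 v = 0 := Prod.ext e3 e4
    rw [hAi] at e5
    have e6 : A v = 0 := e5
    exact A.map_eq_zero_iff.1 e6
  obtain ⟨d1, hd1, hd1i⟩ := unif (n := n) (fun i a => InjOn (ψ i) (ball 0 a))
    (fun i a b h hab => h.mono (ball_subset_ball hab)) hψinj
  obtain ⟨d2, hd2, hd2i⟩ := unif (n := n) (fun i a => InjOn (s i) (ball 0 a))
    (fun i a b h hab => h.mono (ball_subset_ball hab)) hsinj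
  obtain ⟨V, δ', hV⟩ := h1 n K hgeo (min d0 (min d1 d2)) (lt_min hd0 (lt_min hd1 hd2))
  have hV0 : ∀ i, V i ⊆ ball 0 d0 := fun i =>
    (hV.sub_ball i).trans (ball_subset_ball (min_le_left _ _))
  have hV1 : ∀ i, V i ⊆ ball 0 d1 := fun i =>
    (hV.sub_ball i).trans (ball_subset_ball ((min_le_right _ _).trans (min_le_left _ _)))
  have hV2 : ∀ i, V i ⊆ ball 0 d2 := fun i =>
    (hV.sub_ball i).trans (ball_subset_ball ((min_le_right _ _).trans (min_le_right _ _)))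
  have hu0 : ∀ i, u i 0 = 0 := by
    intro i
    rw [hu]
    show κ i * (K.σ i 0).2 * H i 0 = 0
    rw [K.map_zero i]
    simp
  have hψ0 : ∀ i, ψ i 0 = 0 := by
    intro i
    rw [hψ]
    show ((0 : ℂ × ℂ).1, u i 0) = 0
    rw [hu0 i]
    rfl
  have hs0 : ∀ i, s i 0 = 0 := by
    intro i
    rw [hs]
    show ((K.σ i 0).1 * (τ * κ i * H i 0)⁻¹, τ * u i 0) = 0
    rw [hu0 i, K.map_zero i]
    simp
  have hconj : ∀ i, ∀ y ∈ V i, bA (s i y) = ψ (i + 1) (bA (K.σ i y)) := by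
    intro i y hy
    have e1 := (heq i y (hV0 i hy)).2 (hV0 (i + 1) (hV.maps i y hy))
    have e2 : H i y ≠ 0 := hHne i y (hV0 i hy)
    have e3 : u (i + 1) (bA (K.σ i y)) = τ * u i y := by
      rw [hu]
      exact e1
    have e4 : (s i y).1 = (K.σ i y).1 * (τ * κ i * H i y)⁻¹ := by rw [hs]
    have e5 : (s i y).2 = τ * u i y := by rw [hs]
    have e6 : ψ (i + 1) (bA (K.σ i y)) = ((bA (K.σ i y)).1, u (i + 1) (bA (K.σ i y))) := by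
      rw [hψ]
    have e7 : u i y = κ i * (K.σ i y).2 * H i y := by rw [hu]
    rw [e6, e3]
    unfold bA
    rw [e4, e5]
    refine Prod.ext ?_ rfl
    show (K.σ i y).1 * (τ * κ i * H i y)⁻¹ * (τ * u i y) = (K.σ i y).1 * (K.σ i y).2
    rw [e7]
    have e8 := hκ i
    field_simp
  obtain ⟨K', hK'U, hK'σ⟩ := h3 n K V (min d0 (min d1 d2)) δ' ψ s hV
    (fun i => (hψd i).mono (hV0 i)) (fun i => (hd1i i).mono (hV1 i)) hψ0
    (fun i => (hsd i).mono (hV0 i)) (fun i => (hd2i i).mono (hV2 i)) hs0 hconj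
  refine ⟨K', τ, V, ψ, δ', ⟨hτ0, hτ1, fun i Z hZ => ?_⟩, ?_⟩
  · rw [hK'U i] at hZ
    obtain ⟨y, hy, rfl⟩ := hZ
    rw [hK'σ i y hy, hs, hψ]
  · exact {
      pos := hV.pos
      isOpen := hV.isOpen
      ball_sub := hV.ball_sub
      subU := hV.subU
      maps := hV.maps
      diff := fun i => (hψd i).mono (hV0 i)
      inj := fun i => (hd1i i).mono (hV1 i)
      zero := hψ0
      dir := fun i => by
        rw [(hψ' i).fderiv]
        rfl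
      U_eq := hK'U
      conj := fun i y hy => by
        rw [hK'σ i y hy]
        exact hconj i y hy }

end Pool.Agent.H299.KT
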